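import Pool.Agent.helper62.MS.SpecD
import Pool.Agent.helper25.MS.MS1

set_option autoImplicit false

open scoped MatrixGroups ContDiff Topology UpperHalfPlane ComplexConjugate
open UpperHalfPlane MeasureTheory Filter Set

namespace Pool.Agent.MS

open Pool.Agent.RS

/-! ## real analysis -/

theorem MS2_schur (C1 C2 C3 K δ ρ ρ' N N' n s a r X U T L0 M0 : ℝ) (hC1 : 0 < C1) (hC2 : 0 < C2) (hC3 : 1 ≤ C3) (hK : 1 ≤ K)
    (hδ0 : 0 < δ) (ha : 0 < a) (hN0 : 0 ≤ N) (hN0' : 0 ≤ N') (hN : N ≤ Real.exp ((ρ + δ) * n)) (hN' : N' ≤ Real.exp ((ρ' + δ) * n)) (hr : 0 < r)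
    (hM0 : M0 = 16 * a * C1 * C2 * (2 * K * C3 / δ) * (1 + δ * Real.exp s / (2 * K * C3)))
    (hn1 : M0 * Real.exp (-(1 - ρ - ρ' - 2 * δ) * n) ≤ δ ^ 2)
    (hL0 : L0 = 2 * K * (C3 * Real.exp n) / δ) (hX : X = r / L0) (hU : U = Real.exp (-n) / X) (hT : T = n + s) :
    r ^ 2 * (C1 * N * Real.exp (-(T / 2)) * U * (1 + X * Real.exp T / r)) *
      (C2 * N' * (16 * a * Real.exp (-n)) * Real.exp (T / 2) / r) ≤ δ ^ 2 := by
  have hE : 0 < Real.exp n := Real.exp_pos n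
  have hEs : 0 < Real.exp s := Real.exp_pos s
  have hK0 : 0 < K := by linarith
  have hC30 : 0 < C3 := by linarith
  have hL00 : 0 < L0 := by rw [hL0]; positivity
  have hX0 : 0 < X := by rw [hX]; positivity
  have hM00 : 0 < M0 := by rw [hM0]; positivity
  have e1 : Real.exp (-n) = (Real.exp n)⁻¹ := Real.exp_neg n
  have e2 : r * U = 2 * K * C3 / δ := by
    rw [hU, hX, hL0, e1]
    field_simp
  have e3 : X * Real.exp T / r = δ * Real.exp s / (2 * K * C3) := by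
    rw [hX, hL0, hT, Real.exp_add]
    field_simp
  have e5 : Real.exp (-(T / 2)) * Real.exp (T / 2) = 1 := by
    rw [← Real.exp_add]
    simp
  have e6 : r ^ 2 * (C1 * N * Real.exp (-(T / 2)) * U * (1 + X * Real.exp T / r)) *
      (C2 * N' * (16 * a * Real.exp (-n)) * Real.exp (T / 2) / r) =
      16 * a * C1 * C2 * (r * U) * (1 + X * Real.exp T / r) * (N * N' * Real.exp (-n)) * (Real.exp (-(T / 2)) * Real.exp (T / 2)) := by
    field_simp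
  rw [e6, e5, e2, e3, mul_one, ← hM0]
  refine le_trans (mul_le_mul_of_nonneg_left ?_ hM00.le) hn1
  calc N * N' * Real.exp (-n) ≤ Real.exp ((ρ + δ) * n) * Real.exp ((ρ' + δ) * n) * Real.exp (-n) :=
        mul_le_mul_of_nonneg_right (mul_le_mul hN hN' hN0' (Real.exp_pos _).le) (Real.exp_pos _).le
    _ = Real.exp (-(1 - ρ - ρ' - 2 * δ) * n) := by
        rw [← Real.exp_add, ← Real.exp_add]
        congr 1
        ring

theorem MS2_n1 (M0 κ δ : ℝ) (hκ : 0 < κ) (hδ : 0 < δ) : ∃ n1 : ℕ, 1 ≤ n1 ∧ ∀ n : ℕ, n1 ≤ n → M0 * Real.exp (-κ * n) ≤ δ ^ 2 := by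
  have h1 : Tendsto (fun n : ℕ => M0 * Real.exp (-κ * n)) atTop (𝓝 (M0 * 0)) := by
    refine Tendsto.const_mul M0 ?_
    refine Real.tendsto_exp_atBot.comp ?_
    refine Tendsto.const_mul_atTop_of_neg (by linarith) tendsto_natCast_atTop_atTop
  rw [mul_zero] at h1
  have h2 := h1.eventually_le_const (show (0 : ℝ) < δ ^ 2 by positivity)
  obtain ⟨N, hN⟩ := eventually_atTop.1 h2
  exact ⟨max N 1, le_max_right _ _, fun n hn => hN n ((le_max_left _ _).trans hn)⟩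

theorem MS2_s (K C3 δ : ℝ) (hδ : 0 < δ) : ∃ s : ℝ, 0 ≤ s ∧ K * C3 * Real.exp (-s) ≤ δ / 2 := by
  have h1 : Tendsto (fun s : ℝ => K * C3 * Real.exp (-s)) atTop (𝓝 (K * C3 * 0)) :=
    (Real.tendsto_exp_neg_atTop_nhds_zero).const_mul _
  rw [mul_zero] at h1
  have h2 := (eventually_ge_atTop (0 : ℝ)).and (h1.eventually_le_const (show (0 : ℝ) < δ / 2 by positivity))
  obtain ⟨s, hs⟩ := h2.exists
  exact ⟨s, hs.1, hs.2⟩

/-! ## the part on the support -/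

theorem MS2_int (hFL0 : FL0_stmt) (hGFD : GFD_stmt) (hGBD : GBD_stmt)
    (Γ : Subgroup SL(2, ℝ)) (F : Set ℍ) (hΓ : QU.SurfaceGroup Γ) (hF : QU.NiceDom Γ F) (c : ℍ → ℂ) (hc : TB (1 / 4) c)
    (r : ℝ) (φ : ℍ → ℂ) (hφ : EigL Γ (1 / 4 + r ^ 2) φ) (Ψ : SL(2, ℝ) → ℝ) (hΨ : InvG Γ Ψ) (hΨ1 : ∀ g, 0 ≤ Ψ g ∧ Ψ g ≤ 1) (t : ℝ) :
    IntegrableOn (fun g => Ψ (g * aM t) * ‖Wf (pk r c) φ g‖ ^ 2) (dG F) mG := by
  have hPint : IntegrableOn (fun g => ‖Wf (pk r c) φ g‖ ^ 2) (dG F) mG := EF1_int hGFD hGBD hFL0 r hΓ hF hc (EF1_invC hφ)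
  have hΨc : Continuous fun g : SL(2, ℝ) => Ψ (g * aM t) := hΨ.1.comp (continuous_mul_const _)
  refine Integrable.mono' hPint (hΨc.aestronglyMeasurable.mul hPint.1) (Eventually.of_forall fun g => ?_)
  rw [norm_mul, Real.norm_eq_abs, abs_of_nonneg (hΨ1 _).1, Real.norm_eq_abs, abs_of_nonneg (sq_nonneg _)]
  exact mul_le_of_le_one_left (sq_nonneg _) (hΨ1 _).2

theorem MS2_le (hFL0 : FL0_stmt) (hGFD : GFD_stmt) (hGBD : GBD_stmt)
    (Γ : Subgroup SL(2, ℝ)) (F : Set ℍ) (hΓ : QU.SurfaceGroup Γ) (hF : QU.NiceDom Γ F) (c : ℍ → ℂ) (hc : TB (1 / 4) c)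
    (r : ℝ) (φ : ℍ → ℂ) (hφ : EigL Γ (1 / 4 + r ^ 2) φ) (Ψ : SL(2, ℝ) → ℝ) (hΨ : InvG Γ Ψ) (hΨ1 : ∀ g, 0 ≤ Ψ g ∧ Ψ g ≤ 1) (t : ℝ) :
    iR F (fun g => Ψ (g * aM t) * ‖Wf (pk r c) φ g‖ ^ 2) ≤ ∫ g in dG F ∩ {g : SL(2, ℝ) | Ψ (g * aM t) ≠ 0}, ‖Wf (pk r c) φ g‖ ^ 2 ∂mG := by
  have hPint : IntegrableOn (fun g => ‖Wf (pk r c) φ g‖ ^ 2) (dG F) mG := EF1_int hGFD hGBD hFL0 r hΓ hF hc (EF1_invC hφ)
  have hΨc : Continuous fun g : SL(2, ℝ) => Ψ (g * aM t) := hΨ.1.comp (continuous_mul_const _)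
  have hBm : MeasurableSet {g : SL(2, ℝ) | Ψ (g * aM t) ≠ 0} := (isOpen_ne_fun hΨc continuous_const).measurableSet
  rw [← setIntegral_indicator hBm]
  refine integral_mono_of_nonneg (Eventually.of_forall fun g => mul_nonneg (hΨ1 _).1 (sq_nonneg _)) (hPint.indicator hBm)
    (Eventually.of_forall fun g => ?_)
  show Ψ (g * aM t) * ‖Wf (pk r c) φ g‖ ^ 2 ≤ {g : SL(2, ℝ) | Ψ (g * aM t) ≠ 0}.indicator (fun g => ‖Wf (pk r c) φ g‖ ^ 2) g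
  by_cases hg : g ∈ {g : SL(2, ℝ) | Ψ (g * aM t) ≠ 0}
  · rw [indicator_of_mem hg]
    exact mul_le_of_le_one_left (sq_nonneg _) (hΨ1 _).2
  · rw [indicator_of_notMem hg]
    have h1 : Ψ (g * aM t) = 0 := not_not.1 hg
    rw [h1, zero_mul]

/-! ## the core estimate -/

theorem MS2_core (hAS1 : AS1_stmt) (hFL0 : FL0_stmt) (hGFD : GFD_stmt) (hGBD : GBD_stmt)
    (Γ : Subgroup SL(2, ℝ)) (F : Set ℍ) (hΓ : QU.SurfaceGroup Γ) (hF : QU.NiceDom Γ F) (c c' : ℍ → ℂ) (hc : TB (1 / 4) c) (hc' : TB (1 / 4) c')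
    (r δ t1 S1 S2 : ℝ) (φ : ℍ → ℂ) (hr : 0 < r) (hδ0 : 0 < δ) (hδ : Real.sqrt δ ≤ 1 / 160) (hφ : EigL Γ (1 / 4 + r ^ 2) φ) (hn : nn F φ = 1)
    (hf : ∀ u : ℍ → ℂ, InvC Γ u → r * qn F c r u ≤ (1 + δ) * nn F u) (hf' : ∀ u : ℍ → ℂ, InvC Γ u → r * qn F c' r u ≤ (1 + δ) * nn F u)
    (hq : |r * qn F c r φ - 1| ≤ δ) (Ψ : SL(2, ℝ) → ℝ) (hΨ : InvG Γ Ψ)
    (D : Set SL(2, ℝ)) (hD : MeasurableSet D) (hDi : ∀ (γ : Γ) (g : SL(2, ℝ)), (γ : SL(2, ℝ)) * g ∈ D ↔ g ∈ D)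
    (hS1 : 0 ≤ S1) (hS2 : 0 ≤ S2)
    (hB1 : ∀ h : SL(2, ℝ), ∫⁻ k in {k | h * k ∈ {g : SL(2, ℝ) | Ψ (g * aM t1) ≠ 0}}, ENNReal.ofReal ‖gk r c' c k‖ ∂mG ≤ ENNReal.ofReal S1)
    (hB2 : ∀ g : SL(2, ℝ), ∫⁻ k in {k | g * k⁻¹ ∈ D}, ENNReal.ofReal ‖gk r c' c k‖ ∂mG ≤ ENNReal.ofReal S2)
    (hS : r ^ 2 * S1 * S2 ≤ δ ^ 2) :
    r * (∫ g in dG F ∩ {g : SL(2, ℝ) | Ψ (g * aM t1) ≠ 0}, ‖Wf (pk r c) φ g‖ ^ 2 ∂mG) +
      r * ∫ h in dG F ∩ D, ‖Wf (pk r c') φ h‖ ^ 2 ∂mG ≤ 1 + 81 * Real.sqrt δ := by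
  set P : SL(2, ℝ) → ℝ := fun g => ‖Wf (pk r c) φ g‖ ^ 2 with hP
  have hP0 : ∀ g, 0 ≤ P g := fun g => sq_nonneg _
  set B : Set SL(2, ℝ) := {g : SL(2, ℝ) | Ψ (g * aM t1) ≠ 0} with hB
  have hΨc : Continuous fun g : SL(2, ℝ) => Ψ (g * aM t1) := hΨ.1.comp (continuous_mul_const _)
  have hBm : MeasurableSet B := (isOpen_ne_fun hΨc continuous_const).measurableSet
  have hBi : ∀ (γ : Γ) (g : SL(2, ℝ)), (γ : SL(2, ℝ)) * g ∈ B ↔ g ∈ B := by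
    intro γ g
    show Ψ ((γ : SL(2, ℝ)) * g * aM t1) ≠ 0 ↔ Ψ (g * aM t1) ≠ 0
    rw [mul_assoc, hΨ.2]
  have hPint : IntegrableOn P (dG F) mG := EF1_int hGFD hGBD hFL0 r hΓ hF hc (EF1_invC hφ)
  have hsplit : ∫ g in dG F ∩ B, P g ∂mG + ∫ g in dG F \ B, P g ∂mG = qn F c r φ :=
    integral_inter_add_sdiff hBm hPint
  have hIC : 0 ≤ ∫ g in dG F \ B, P g ∂mG := setIntegral_nonneg_of_ae (Eventually.of_forall fun g => hP0 g)
  have hIB : 0 ≤ ∫ g in dG F ∩ B, P g ∂mG := setIntegral_nonneg_of_ae (Eventually.of_forall fun g => hP0 g)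
  have hqq := abs_le.1 hq
  have hs0 : 0 < Real.sqrt δ := Real.sqrt_pos.2 hδ0
  have hsq : Real.sqrt δ ^ 2 = δ := Real.sq_sqrt hδ0.le
  have hδ1 : δ ≤ 1 / 160 ^ 2 := by
    have h2 := pow_le_pow_left₀ (Real.sqrt_nonneg δ) hδ 2
    rw [hsq] at h2
    norm_num at h2 ⊢
    exact h2
  have hsr : r * (∫ g in dG F ∩ B, P g ∂mG) + r * (∫ g in dG F \ B, P g ∂mG) = r * qn F c r φ := by
    rw [← hsplit]
    ring
  set x : ℝ := r * ∫ g in dG F ∩ B, P g ∂mG with hx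
  have hx0 : 0 ≤ x := mul_nonneg hr.le hIB
  have hy0 : 0 ≤ r * ∫ g in dG F \ B, P g ∂mG := mul_nonneg hr.le hIC
  have hx1 : x ≤ 1 + δ := by linarith
  have e2 : r * ∫ g in dG F \ B, P g ∂mG ≤ 1 + δ - x := by linarith
  have key := hAS1 Γ F c c' r r δ S1 S2 φ B D hΓ hF hc hc' hr hδ0.le hφ hn hf hf' hBm hD hBi hDi hS1 hS2 hB1 hB2
  have hII : 0 ≤ r * ∫ h in dG F ∩ D, ‖Wf (pk r c') φ h‖ ^ 2 ∂mG :=
    mul_nonneg hr.le (setIntegral_nonneg_of_ae (Eventually.of_forall fun g => sq_nonneg _))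
  set Z : ℝ := r * ∫ h in dG F ∩ D, ‖Wf (pk r c') φ h‖ ^ 2 ∂mG with hZ
  set m : ℝ := min x 1 with hm
  have hm0 : 0 ≤ m := le_min hx0 zero_le_one
  have hm1 : m ≤ 1 := min_le_right _ _
  have hmx : x - δ ≤ m := le_min (by linarith) (by linarith)
  have e4 : 1 + δ - x ≤ 1 - m + 5 * δ := by
    have h1 : m ≤ x := min_le_left _ _
    linarith
  have fin : (1 - Real.sqrt δ ^ 2) * Real.sqrt Z ≤ Real.sqrt (2 * (Real.sqrt δ ^ 2) ^ 2) +
      (1 + Real.sqrt δ ^ 2) * Real.sqrt (1 - m + 5 * Real.sqrt δ ^ 2) := by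
    rw [hsq]
    refine le_trans (mul_le_mul_of_nonneg_right (by linarith : 1 - δ ≤ r * qn F c r φ) (Real.sqrt_nonneg _)) (key.trans ?_)
    refine add_le_add (Real.sqrt_le_sqrt ?_) (mul_le_mul_of_nonneg_left (Real.sqrt_le_sqrt (e2.trans e4)) (by linarith))
    calc r ^ 2 * S1 * S2 * x ≤ δ ^ 2 * 2 :=
          mul_le_mul hS (by linarith) hx0 (sq_nonneg _)
      _ = 2 * δ ^ 2 := by ring
  have res := MS1_alg (Real.sqrt δ) m (Real.sqrt Z) hs0 hδ hm0 hm1 (Real.sqrt_nonneg _) fin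
  rw [Real.sq_sqrt hII] at res
  have h9 : δ ≤ Real.sqrt δ := by
    nlinarith
  linarith

theorem MS2_proof (hSTB : STB_stmt) (hNM3 : NM3_stmt) (hEQ4 : EQ4_stmt) (hINW : INW_stmt) (hAS1 : AS1_stmt)
    (hBXM : BXM_stmt) (hSS1 : SS1_stmt) (hSS3 : SS3_stmt) (hCV1 : CV1_stmt) (hFL0 : FL0_stmt) (hGFD : GFD_stmt)
    (hGBD : GBD_stmt) (hGLC : GLC_stmt) : MS2_stmt := by
  classical
  intro Γ F β α ρ ρ' hΓ hF hβ hα hρ hρ' hρρ ε hε0 hε1
  obtain ⟨-, -, -, hst, hmono, -⟩ := hSTB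
  have hα4 : BA (1 / 4) α := (hmono (1 / 8) (1 / 4) α (by norm_num)).2.1 hα
  obtain ⟨a1, C1, ha1, hC1, hS1⟩ := hSS1 Γ β α β α hΓ hβ.1 hα4.1 hβ.1 hα4.1
  obtain ⟨C2, hC2, hS3⟩ := hSS3 Γ β α β α hΓ hβ.1 hα4.1 hβ.1 hα4.1
  obtain ⟨K, rI, hK, hrI, hI⟩ := hINW Γ F β α hΓ hF hβ hα4
  obtain ⟨a2, ha2, ha28, hBX⟩ := hBXM Γ hΓ
  set a : ℝ := min a2 (min (a1 / 16) (1 / 128)) with ha
  have ha0 : 0 < a := lt_min ha2 (lt_min (by linarith) (by norm_num))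
  have haa1 : 16 * a ≤ a1 := by
    have h1 : a ≤ a1 / 16 := (min_le_right _ _).trans (min_le_left _ _)
    linarith
  have ha8 : 16 * a ≤ 1 / 8 := by
    have h1 : a ≤ 1 / 128 := (min_le_right _ _).trans (min_le_right _ _)
    linarith
  obtain ⟨C3', hC3', hBX'⟩ := hBX a ha0 (min_le_left _ _)
  set C3 : ℝ := max C3' 1 with hC3d
  have hC3 : 1 ≤ C3 := le_max_right _ _
  have hC3le : C3' ≤ C3 := le_max_left _ _
  have hK0 : 0 < K := by linarith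
  have hC30 : 0 < C3 := by linarith
  set δ : ℝ := min ((1 - ρ - ρ') / 4) ((ε / 200) ^ 2) with hδd
  have hδ0 : 0 < δ := lt_min (by linarith) (by positivity)
  have hδθ : δ ≤ (1 - ρ - ρ') / 4 := min_le_left _ _
  have hδε : δ ≤ (ε / 200) ^ 2 := min_le_right _ _
  have hsδ : Real.sqrt δ ≤ ε / 200 := by
    apply Real.sqrt_le_iff.2
    exact ⟨by positivity, hδε⟩
  have hδ2 : 100 * δ ≤ ε := by nlinarith
  have hδ1 : δ ≤ 1 := by linarith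
  obtain ⟨s, hs0, hs⟩ := MS2_s K C3 δ hδ0
  set M0 : ℝ := 16 * a * C1 * C2 * (2 * K * C3 / δ) * (1 + δ * Real.exp s / (2 * K * C3)) with hM0
  obtain ⟨n1, hn1, hn⟩ := MS2_n1 M0 (1 - ρ - ρ' - 2 * δ) δ (by linarith) hδ0
  refine ⟨a, δ, n1, ha0, hδ0, by linarith, ?_⟩
  intro n hnn A A' hA hA'
  have hn1' : (1 : ℝ) ≤ n := by
    exact_mod_cast hn1.trans hnn
  have hn0 : (0 : ℝ) ≤ n := by linarith
  obtain ⟨Ψ, Ψa, Ψn, Ψl, hSF, hΨ1, hΨn, hΨl, hΨbox, hΨsup⟩ := hBX' n A hn0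
  obtain ⟨Ψ', Ψa', Ψn', Ψl', hSF', hΨ1', hΨn', hΨl', hΨbox', hΨsup'⟩ := hBX' n A' hn0
  set T : ℝ := (n : ℝ) + s with hT
  have hT0 : 0 ≤ T := by linarith
  set B : ℝ := C3 * Real.exp n with hBd
  set L0 : ℝ := 2 * K * B / δ with hL0d
  have hBst : BB (1 / 4) (st (-T) β) := by
    have h1 := hst (1 / 4) (-T) β hβ
    refine (hmono _ (1 / 4) _ ?_).2.2 h1
    have h2 : Real.exp (-T) ≤ 1 := Real.exp_le_one_iff.2 (by linarith)
    nlinarith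
  obtain ⟨rN, hrN, hN1⟩ := hNM3 Γ F α β hΓ hF hα4 hβ δ hδ0
  obtain ⟨rN', hrN', hN2⟩ := hNM3 Γ F α (st (-T) β) hΓ hF hα4 hBst δ hδ0
  obtain ⟨rE, hrE, hE4⟩ := hEQ4 Γ F β α α T hΓ hF hβ hα hα hT0 δ hδ0
  obtain ⟨R, hR1, hRI, hRE, hRN, hRN', hR⟩ := MS1_r2 K B δ L0 rI (max rE (Real.exp (s ^ 2))) rN rN' hδ0
  refine ⟨Ψ, Ψ', R, hSF.i0, hSF'.i0, hΨ1, hΨ1', hΨbox, hΨbox', hR1, ?_⟩
  intro r m t φ hr hφ hnφ hm0 hm1 ht1 ht2 hyp
  have hr0 : 0 < r := by linarith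
  by_cases hme : m < 4 * δ
  · linarith
  push_neg at hme
  have hE1 : 1 ≤ Real.exp (n : ℝ) := Real.one_le_exp hn0
  have hB1 : 1 ≤ B := by
    rw [hBd]
    nlinarith
  have hL01 : 1 ≤ L0 := by
    rw [hL0d, le_div_iff₀ hδ0]
    nlinarith
  have hL00 : 0 < L0 := by linarith
  obtain ⟨q1, q2, q3, q4⟩ := hR r hr
  have hsr : s ≤ Real.sqrt (Real.log r) := by
    apply Real.le_sqrt_of_sq_le
    rw [Real.le_log_iff_exp_le hr0]
    exact (le_max_right _ _).trans (hRE.trans hr)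
  set X : ℝ := r / L0 with hX
  have hX1 : 1 ≤ X := by
    rw [hX, le_div_iff₀ hL00]
    linarith
  have hX0 : 0 < X := by linarith
  set t1 : ℝ := Real.log X with ht1d
  have hexp : Real.exp t1 = X := Real.exp_log hX0
  have ht1' : t1 = Real.log r - Real.log L0 := Real.log_div hr0.ne' hL00.ne'
  have hlogL : 0 ≤ Real.log L0 := Real.log_nonneg hL01
  have hss0 : 0 ≤ Real.sqrt (Real.log r) := Real.sqrt_nonneg _
  have htt : t ≤ t1 := by linarith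
  have hCE : C3' ≤ B := by nlinarith
  -- (1)
  have hinv := hI r φ (hRI.trans hr) hφ Ψ Ψa Ψn Ψl C3 B hSF (fun g => by rw [abs_of_nonneg (hΨ1 g).1]; exact (hΨ1 g).2)
    (fun g => (hΨn g).trans hC3le)
    (fun g => (hΨl g).trans (by
      rw [hBd]
      exact mul_le_mul_of_nonneg_right hC3le (Real.exp_pos _).le))
    t t1 (hss0.trans ht1) htt
  have hexpt : Real.exp (-t) ≤ Real.exp (-Real.sqrt (Real.log r)) := Real.exp_le_exp.2 (by linarith)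
  have hKlog : ∀ t2 : ℝ, t2 ≤ Real.log r → K * (t2 / r) ≤ δ / 4 := by
    intro t2 ht2
    refine le_trans ?_ q4
    exact mul_le_mul_of_nonneg_left (div_le_div_of_nonneg_right ht2 hr0.le) hK0.le
  have hC3B : C3 ≤ B := by
    rw [hBd]
    nlinarith
  have herr : K * (C3 * Real.exp (-t) + (t1 + B * Real.exp t1) / r) * nn F φ ≤ δ := by
    rw [hnφ, mul_one, hexp]
    have h2 : K * (C3 * Real.exp (-t)) ≤ K * B * Real.exp (-Real.sqrt (Real.log r)) := by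
      rw [mul_assoc]
      exact mul_le_mul_of_nonneg_left (mul_le_mul hC3B hexpt (Real.exp_pos _).le (by linarith)) hK0.le
    have h3 : K * (t1 / r) ≤ δ / 4 := hKlog t1 (by linarith)
    have h4 : K * (B * X / r) = δ / 2 := by
      have hB0 : 0 < B := by linarith
      rw [hX, hL0d]
      field_simp
    have h5 : K * (C3 * Real.exp (-t) + (t1 + B * X) / r) = K * (C3 * Real.exp (-t)) + K * (t1 / r) + K * (B * X / r) := by
      rw [add_div]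
      ring
    rw [h5, h4]
    linarith
  -- (2)
  have hinv' := hI r φ (hRI.trans hr) hφ Ψ' Ψa' Ψn' Ψl' C3 B hSF' (fun g => by rw [abs_of_nonneg (hΨ1' g).1]; exact (hΨ1' g).2)
    (fun g => (hΨn' g).trans hC3le)
    (fun g => (hΨl' g).trans (by
      rw [hBd]
      exact mul_le_mul_of_nonneg_right hC3le (Real.exp_pos _).le))
    s t hs0 (hsr.trans ht1)
  have herr' : K * (C3 * Real.exp (-s) + (t + B * Real.exp t) / r) * nn F φ ≤ δ := by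
    rw [hnφ, mul_one]
    have h3 : K * (t / r) ≤ δ / 4 := hKlog t (by linarith)
    have h4 : K * (B * Real.exp t / r) ≤ K * B * Real.exp (-Real.sqrt (Real.log r)) := by
      have h6 : Real.exp t ≤ r * Real.exp (-Real.sqrt (Real.log r)) := by
        have h7 : r * Real.exp (-Real.sqrt (Real.log r)) = Real.exp (Real.log r - Real.sqrt (Real.log r)) := by
          rw [sub_eq_add_neg, Real.exp_add, Real.exp_log hr0]
        rw [h7]
        exact Real.exp_le_exp.2 ht2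
      have h8 : B * Real.exp t / r ≤ B * Real.exp (-Real.sqrt (Real.log r)) := by
        rw [div_le_iff₀ hr0]
        have := mul_le_mul_of_nonneg_left h6 (by linarith : (0 : ℝ) ≤ B)
        linarith
      calc K * (B * Real.exp t / r) ≤ K * (B * Real.exp (-Real.sqrt (Real.log r))) := mul_le_mul_of_nonneg_left h8 hK0.le
        _ = K * B * Real.exp (-Real.sqrt (Real.log r)) := by ring
    have h5 : K * (C3 * Real.exp (-s) + (t + B * Real.exp t) / r) = K * C3 * Real.exp (-s) + K * (t / r) + K * (B * Real.exp t / r) := by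
      rw [add_div]
      ring
    rw [h5]
    linarith
  have haM : ∀ s t, aM (s + t) = aM s * aM t := hGLC.2.2.2.2.2.2.2.2.2.2.1
  have hE4' := hE4 r φ ((le_max_left _ _).trans (hRE.trans hr)) hφ (fun g => Ψ' (g * aM s))
    (hSF'.i0.1.comp (continuous_mul_const _)).measurable
    (fun g => by rw [abs_of_nonneg (hΨ1' _).1]; exact (hΨ1' _).2)
    (fun γ g => by
      show Ψ' ((γ : SL(2, ℝ)) * g * aM s) = Ψ' (g * aM s)
      rw [mul_assoc, hSF'.i0.2])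
  have hTs : ∀ g : SL(2, ℝ), g * aM (-T) * aM s = g * aM (-(n : ℝ)) := by
    intro g
    rw [mul_assoc, ← haM]
    congr 2
    rw [hT]
    ring
  simp only [hTs] at hE4'
  rw [hnφ, mul_one] at hE4'
  have hc1 : TB (1 / 4) (pc β α) := (hCV1.2.2 (1 / 4) α β hα4.1 hβ.1).1
  have hc2 : TB (1 / 4) (pc (st (-T) β) α) := (hCV1.2.2 (1 / 4) α (st (-T) β) hα4.1 hBst.1).1
  obtain ⟨hf1, hf2⟩ := hN1 r (hRN.trans hr)
  obtain ⟨hf1', -⟩ := hN2 r (hRN'.trans hr)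
  have hqq := hf2 φ hφ
  rw [hnφ, mul_one] at hqq
  set U : ℝ := Real.exp (-(n : ℝ)) / X with hU
  have hU0 : 0 < U := div_pos (Real.exp_pos _) hX0
  have hXU : X * U ≤ 1 := by
    rw [hU, mul_div_cancel₀ _ hX0.ne']
    exact Real.exp_le_one_iff.2 (by linarith)
  have hv1 : 16 * a * Real.exp (-(n : ℝ)) ≤ 1 := by
    have h1 : Real.exp (-(n : ℝ)) ≤ 1 := Real.exp_le_one_iff.2 (by linarith)
    have h2 : 0 < Real.exp (-(n : ℝ)) := Real.exp_pos _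
    nlinarith
  have hDc : Continuous fun g : SL(2, ℝ) => Ψ' (g * aM (-(n : ℝ))) := hSF'.i0.1.comp (continuous_mul_const _)
  have core := MS2_core hAS1 hFL0 hGFD hGBD Γ F hΓ hF (pc β α) (pc (st (-T) β) α) hc1 hc2 r δ t1
    (C1 * A.card * Real.exp (-(T / 2)) * U * (1 + X * Real.exp T / r))
    (C2 * A'.card * (16 * a * Real.exp (-(n : ℝ))) * Real.exp (T / 2) / r) φ hr0 hδ0 (hsδ.trans (by linarith)) hφ hnφ hf1 hf1' hqq Ψ hSF.i0
    {g : SL(2, ℝ) | Ψ' (g * aM (-(n : ℝ))) ≠ 0} (isOpen_ne_fun hDc continuous_const).measurableSet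
    (fun γ g => by
      show Ψ' ((γ : SL(2, ℝ)) * g * aM (-(n : ℝ))) ≠ 0 ↔ Ψ' (g * aM (-(n : ℝ))) ≠ 0
      rw [mul_assoc, hSF'.i0.2])
    (by positivity) (by positivity) ?_ ?_ ?_
  · have h1 := MS2_le hFL0 hGFD hGBD Γ F hΓ hF (pc β α) hc1 r φ hφ Ψ hSF.i0 hΨ1 t1
    have h2 := MS2_le hFL0 hGFD hGBD Γ F hΓ hF (pc (st (-T) β) α) hc2 r φ hφ Ψ' hSF'.i0 hΨ1' (-(n : ℝ))
    have i1 := MS2_int hFL0 hGFD hGBD Γ F hΓ hF (pc β α) hc1 r φ hφ Ψ hSF.i0 hΨ1 t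
    have i2 := MS2_int hFL0 hGFD hGBD Γ F hΓ hF (pc β α) hc1 r φ hφ Ψ' hSF'.i0 hΨ1' t
    have h3 : iR F (fun g => (Ψ (g * aM t) + Ψ' (g * aM t)) * ‖pf β α r φ g‖ ^ 2) =
        iR F (fun g => Ψ (g * aM t) * ‖pf β α r φ g‖ ^ 2) + iR F (fun g => Ψ' (g * aM t) * ‖pf β α r φ g‖ ^ 2) := by
      have h4 : (fun g => (Ψ (g * aM t) + Ψ' (g * aM t)) * ‖pf β α r φ g‖ ^ 2) =
          fun g => Ψ (g * aM t) * ‖pf β α r φ g‖ ^ 2 + Ψ' (g * aM t) * ‖pf β α r φ g‖ ^ 2 := by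
        funext g
        ring
      rw [h4]
      exact integral_add i1 i2
    rw [h3] at hyp
    have g1 := mul_le_mul_of_nonneg_left h1 hr0.le
    have g2 := mul_le_mul_of_nonneg_left h2 hr0.le
    have g3 := mul_le_mul_of_nonneg_left hyp.le hr0.le
    have g4 := abs_le.1 (hinv.trans herr)
    have g5 := abs_le.1 (hinv'.trans herr')
    have g6 := abs_le.1 hE4'
    have g7 := abs_le.1 hqq
    have g8 : (m - 4 * δ) * (1 - δ) ≤ (m - 4 * δ) * (r * qn F (pc β α) r φ) := mul_le_mul_of_nonneg_left (by linarith) (by linarith)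
    have g9 : (m - 4 * δ) * δ ≤ 2 * δ := mul_le_mul_of_nonneg_right (by linarith) hδ0.le
    simp only [pf] at g3 g4 g5 g6
    rw [mul_add] at g3
    have g10 : r * ((m - 4 * δ) * qn F (pc β α) r φ) = (m - 4 * δ) * (r * qn F (pc β α) r φ) := by ring
    rw [g10] at g3
    have g11 : (m - 4 * δ) * (1 - δ) = m - 4 * δ - (m - 4 * δ) * δ := by ring
    rw [g11] at g8
    linarith [g1, g2, g3, g4.1, g5.2, g6.1, g8, g9, core, hsδ, hδ2]
  · intro g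
    set A1 : Finset SL(2, ℝ) := A.image fun y => y * aM (-t1) with hA1
    have hcA : (A1.card : ℝ) ≤ A.card := by exact_mod_cast Finset.card_image_le
    have hsub : {k | g * k ∈ {g : SL(2, ℝ) | Ψ (g * aM t1) ≠ 0}} ⊆
        {k : SL(2, ℝ) | ∃ y ∈ A1, ∃ γ : Γ, bq (16 * a) (16 * a * X) (16 * a * U) (y⁻¹ * (γ : SL(2, ℝ)) * (g * k))} := by
      intro k hk
      obtain ⟨y, hy, γ, hb⟩ := hΨsup (g * k * aM t1) hk
      refine ⟨y * aM (-t1), Finset.mem_image_of_mem _ hy, γ, ?_⟩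
      have h5 := MS1_box _ _ _ t1 y (g * k) γ hb haM
      rw [hexp, mul_div_assoc] at h5
      exact h5
    refine (lintegral_mono_set hsub).trans ?_
    refine (hS1 (16 * a) T r X U A1 g (by linarith) haa1 hT0 (hR1.trans hr) hX1 hU0 hXU).trans ?_
    apply ENNReal.ofReal_le_ofReal
    refine mul_le_mul_of_nonneg_right ?_ (by positivity)
    refine mul_le_mul_of_nonneg_right ?_ hU0.le
    refine mul_le_mul_of_nonneg_right ?_ (Real.exp_pos _).le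
    exact mul_le_mul_of_nonneg_left hcA hC1.le
  · intro g
    set A1 : Finset SL(2, ℝ) := A'.image fun y => y * aM (-(-(n : ℝ))) with hA1
    have hcA : (A1.card : ℝ) ≤ A'.card := by exact_mod_cast Finset.card_image_le
    have hsub : {k | g * k⁻¹ ∈ {g : SL(2, ℝ) | Ψ' (g * aM (-(n : ℝ))) ≠ 0}} ⊆
        {k : SL(2, ℝ) | ∃ y ∈ A1, ∃ γ : Γ, bq (16 * a) (16 * a * Real.exp (-(n : ℝ))) (16 * a) (y⁻¹ * (γ : SL(2, ℝ)) * (g * k⁻¹))} := by
      intro k hk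
      obtain ⟨y, hy, γ, hb⟩ := hΨsup' (g * k⁻¹ * aM (-(n : ℝ))) hk
      refine ⟨y * aM (-(-(n : ℝ))), Finset.mem_image_of_mem _ hy, γ, ?_⟩
      have h5 := MS1_box _ _ _ (-(n : ℝ)) y (g * k⁻¹) γ hb haM
      rw [mul_div_assoc, div_self (Real.exp_pos _).ne', mul_one] at h5
      exact h5
    refine (lintegral_mono_set hsub).trans ?_
    refine (hS3 (16 * a) T r (16 * a * Real.exp (-(n : ℝ))) A1 g (by linarith) ha8 hT0 (hR1.trans hr) (by positivity) hv1).trans ?_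
    apply ENNReal.ofReal_le_ofReal
    refine div_le_div_of_nonneg_right ?_ hr0.le
    refine mul_le_mul_of_nonneg_right ?_ (Real.exp_pos _).le
    refine mul_le_mul_of_nonneg_right ?_ (by positivity)
    exact mul_le_mul_of_nonneg_left hcA hC2.le
  · exact MS2_schur C1 C2 C3 K δ ρ ρ' A.card A'.card n s a r X U T L0 M0 hC1 hC2 hC3 hK hδ0 ha0 (Nat.cast_nonneg _) (Nat.cast_nonneg _) hA hA' hr0
      hM0 (hn n hnn) hL0d hX hU hT

end Pool.Agent.MS
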